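import Pool.Agent.N89.HG.Stm

/-!
Project HG (helper89), part SCL, by helper195: admissible numberings and scaling.
-/

set_option autoImplicit false

namespace Pool.Agent.N195.HG.SCL

open Polynomial Pool.Agent.N89.HX Pool.Agent.N89.HG

/-- scaling of the coefficients -/
lemma ev_scale {O A : Type} [CommRing O] [CommRing A] (φ : O →+* A) {k e D : ℕ}
    (h : Fin (e + 1) → MvPolynomial (Fin k) O) (hh : ∀ i, (h i).IsHomogeneous D) (t : Fin k → A)
    (s : A) : ev φ h (fun j => s * t j) = fun i => s ^ D * ev φ h t i := by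
  funext i
  unfold ev
  rw [MvPolynomial.eval₂_eq', MvPolynomial.eval₂_eq', Finset.mul_sum]
  refine Finset.sum_congr rfl fun d hd => ?_
  have h1 : ∑ j, d j = D := by
    have h2 := hh i (MvPolynomial.mem_support_iff.mp hd)
    have h3 : d.degree = (Finsupp.weight 1) d := by
      rw [Finsupp.degree_eq_weight_one]
      rfl
    rw [← h2, ← h3, Finsupp.degree_eq_sum]
  have h3 : ∏ j, (s * t j) ^ d j = s ^ D * ∏ j, t j ^ d j := by
    simp only [mul_pow, Finset.prod_mul_distrib]
    rw [Finset.prod_pow_eq_pow_sum, h1]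
  rw [h3]
  ring

/-- scaling of `mono` -/
lemma mono_scale {M : Type} [Field M] {e : ℕ} (f : Fin (e + 1) → M) (W : Fin e → M)
    (hf : mono f = ∏ i, (X - C (W i))) {l : M} (hl : l ≠ 0) :
    mono (fun i => l * f i) = ∏ i, (X - C (l * W i)) := by
  have hl1 : l * l⁻¹ = 1 := mul_inv_cancel₀ hl
  have hC : C l * C l⁻¹ = (1 : M[X]) := by rw [← C_mul, hl1, C_1]
  have h1 : mono (fun i => l * f i) = C l ^ e * (mono f).comp (C l⁻¹ * X) := by
    unfold mono
    rw [add_comp, X_pow_comp, sum_comp, mul_add]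
    congr 1
    · rw [← mul_pow, ← mul_assoc, hC, one_mul]
    · rw [Finset.mul_sum]
      refine Finset.sum_congr rfl fun i _ => ?_
      rw [mul_comp, C_comp, X_pow_comp, mul_pow]
      have hi : e = (e - 1 - (i : ℕ)) + 1 + (i : ℕ) := by have := i.2; omega
      have h2 : (C l : M[X]) ^ e * C l⁻¹ ^ (i : ℕ) = C l ^ (e - 1 - (i : ℕ)) * C l := by
        have h3 : (C l : M[X]) ^ e = C l ^ (e - 1 - (i : ℕ)) * C l * C l ^ (i : ℕ) := by
          rw [← pow_succ, ← pow_add, ← hi]
        rw [h3, mul_assoc _ (C l ^ (i : ℕ)), ← mul_pow, hC, one_pow, mul_one]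
      rw [mul_pow, C_mul, C_mul, C_mul, C_mul, C_pow, C_pow]
      linear_combination (-(C (f (Fin.last e)) ^ (e - 1 - (i : ℕ)) * C (f i.castSucc) *
        X ^ (i : ℕ))) * h2
  rw [h1, hf, prod_comp]
  have h3 : (C l : M[X]) ^ e = ∏ _i : Fin e, C l := by
    rw [Finset.prod_const, Finset.card_univ, Fintype.card_fin]
  rw [h3, ← Finset.prod_mul_distrib]
  refine Finset.prod_congr rfl fun i _ => ?_
  rw [sub_comp, X_comp, C_comp, C_mul, mul_sub, ← mul_assoc, hC, one_mul]

/-- two products of linear factors -/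
lemma exists_perm {M : Type} [Field M] {e : ℕ} {V W : Fin e → M} (hW : Function.Injective W)
    (h : ∏ i, (X - C (V i)) = ∏ i, (X - C (W i))) :
    ∃ ρ : Equiv.Perm (Fin e), ∀ i, V i = W (ρ i) := by
  have hm : Multiset.map V Finset.univ.val = Multiset.map W Finset.univ.val := by
    have h1 : ∀ U : Fin e → M, (∏ i, (X - C (U i))).roots = Multiset.map U Finset.univ.val := by
      intro U
      have h2 : ∏ i, (X - C (U i)) = ((Multiset.map U Finset.univ.val).map
          (fun a => X - C a)).prod := by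
        rw [Multiset.map_map]
        rfl
      rw [h2, roots_multiset_prod_X_sub_C]
    rw [← h1 V, ← h1 W, h]
  have hV : Function.Injective V := by
    have h2 : (Multiset.map V Finset.univ.val).Nodup := by
      rw [hm]
      exact Multiset.Nodup.map hW Finset.univ.nodup
    intro i j hij
    exact Multiset.inj_on_of_nodup_map h2 i (Finset.mem_univ i) j (Finset.mem_univ j) hij
  have hex : ∀ i, ∃ j, W j = V i := by
    intro i
    have h2 : V i ∈ Multiset.map W Finset.univ.val := by
      rw [← hm]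
      exact Multiset.mem_map_of_mem V (Finset.mem_univ i)
    obtain ⟨j, _, hj⟩ := Multiset.mem_map.mp h2
    exact ⟨j, hj⟩
  choose r hr using hex
  have hri : Function.Injective r := by
    intro i j hij
    apply hV
    rw [← hr i, ← hr j, hij]
  refine ⟨Equiv.ofBijective r (Finite.injective_iff_bijective.mp hri), fun i => ?_⟩
  rw [Equiv.ofBijective_apply, hr]

/-- **(SCL)** -/
theorem main : S_SCL := by
  intro O _ k e h 𝒢 _ R D hh M _ _ _ φ t W c hc hW hA
  obtain ⟨hA1, hA2⟩ := hA
  -- the numberings for the multiples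
  have hS : ∀ s : M, s ≠ 0 → ∃ ρ : Equiv.Perm (Fin e), ∀ ω : Fin e → M,
      rg φ R.R (fun j => s * t j) ω = ∏ τ : 𝒢, (X - C (s ^ D *
        ∑ i, ω i * ((R.m : M) * W (ρ ((τ : Equiv.Perm (Fin e)) i))))) := by
    intro s hs
    obtain ⟨V, hV1, hV2⟩ := R.spec M φ (fun j => s * t j)
    have hsD : s ^ D ≠ 0 := pow_ne_zero _ hs
    rw [ev_scale φ h hh, mono_scale _ W hA1 hsD] at hV1
    obtain ⟨ρ, hρ⟩ := exists_perm (V := V) (W := fun i => s ^ D * W i)
      (fun i j hij => hW (mul_left_cancel₀ hsD hij)) hV1.symm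
    refine ⟨ρ, fun ω => ?_⟩
    rw [hV2 ω]
    refine Finset.prod_congr rfl fun τ _ => ?_
    rw [Finset.mul_sum]
    congr 2
    refine Finset.sum_congr rfl fun i _ => ?_
    rw [hρ]
    ring
  choose! r hr using hS
  -- pigeonhole
  obtain ⟨ρ, hρ⟩ := Finite.exists_infinite_fiber (fun n : ℕ => r ((n : M) + 1))
  have hinf : Set.Infinite {s : M | s ≠ 0 ∧ r s = ρ} := by
    have h1 : Set.Infinite ((fun n : ℕ => ((n : M) + 1)) ''
        ((fun n : ℕ => r ((n : M) + 1)) ⁻¹' {ρ})) := by
      refine Set.Infinite.image ?_ (Set.infinite_coe_iff.mp hρ)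
      intro a _ b _ hab
      have : (a : M) + 1 = b + 1 := hab
      exact_mod_cast add_right_cancel this
    refine h1.mono ?_
    rintro _ ⟨n, hn, rfl⟩
    exact ⟨Nat.cast_add_one_ne_zero n, hn⟩
  -- both sides are polynomials in `s`
  have hall : ∀ (ω : Fin e → M) (s : M), rg φ R.R (fun j => s * t j) ω = ∏ τ : 𝒢, (X - C (s ^ D *
        ∑ i, ω i * ((R.m : M) * W (ρ ((τ : Equiv.Perm (Fin e)) i))))) := by
    intro ω s
    set P : M[X][X] := rg ((C : M →+* M[X]).comp φ) R.R (fun j => X * C (t j))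
      (fun i => C (ω i)) with hP
    set Q : M[X][X] := ∏ τ : 𝒢, (X - C (X ^ D *
      C (∑ i, ω i * ((R.m : M) * W (ρ ((τ : Equiv.Perm (Fin e)) i)))))) with hQ
    have hPm : ∀ s : M, P.map (evalRingHom s) = rg φ R.R (fun j => s * t j) ω := by
      intro s
      rw [hP]
      unfold rg
      rw [Polynomial.map_add, Polynomial.map_pow, map_X, Polynomial.map_sum]
      congr 1
      refine Finset.sum_congr rfl fun i _ => ?_
      rw [Polynomial.map_mul, map_C, Polynomial.map_pow, map_X, MvPolynomial.hom_eval₂]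
      congr 3
      · ext x
        simp
      · funext x
        rcases x with x | x
        · simp only [Sum.elim_inl, coe_evalRingHom, eval_mul, eval_X, eval_C]
        · simp only [Sum.elim_inr, coe_evalRingHom, eval_C]
    have hQm : ∀ s : M, Q.map (evalRingHom s) = ∏ τ : 𝒢, (X - C (s ^ D *
        ∑ i, ω i * ((R.m : M) * W (ρ ((τ : Equiv.Perm (Fin e)) i))))) := by
      intro s
      rw [hQ, Polynomial.map_prod]
      refine Finset.prod_congr rfl fun τ _ => ?_
      rw [Polynomial.map_sub, map_X, map_C, map_mul, map_pow, coe_evalRingHom, eval_X, eval_C]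
    have hPQ : P = Q := by
      refine Polynomial.ext fun n => ?_
      refine eq_of_infinite_eval_eq _ _ (hinf.mono ?_)
      rintro s ⟨hs, hrs⟩
      have h1 : P.map (evalRingHom s) = Q.map (evalRingHom s) := by
        rw [hPm, hQm, hr s hs ω, hrs]
      have h2 := congrArg (fun p => coeff p n) h1
      simp only [coeff_map, coe_evalRingHom] at h2
      exact h2
    rw [← hPm, ← hQm, hPQ]
  -- `ρ ∈ 𝒢`
  have hmem : ρ ∈ 𝒢 := by
    have hm : (R.m : M) ≠ 0 := by exact_mod_cast R.m_ne
    -- the linear forms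
    let B : Equiv.Perm (Fin e) → ((Fin e → M) →ₗ[M] M) := fun π =>
      ∑ i, (LinearMap.proj i : (Fin e → M) →ₗ[M] M).smulRight ((R.m : M) * W (π i))
    have hB : ∀ π ω, B π ω = ∑ i, ω i * ((R.m : M) * W (π i)) := by
      intro π ω
      simp only [B, LinearMap.sum_apply, LinearMap.smulRight_apply, LinearMap.proj_apply,
        smul_eq_mul]
    have hcov : ⋃ τ : 𝒢, ((LinearMap.ker (B ρ - B (τ : Equiv.Perm (Fin e))) :
        Submodule M (Fin e → M)) : Set (Fin e → M)) = Set.univ := by
      rw [Set.eq_univ_iff_forall]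
      intro ω
      have h1 := hall ω 1
      simp only [one_mul, one_pow] at h1
      have h2 : rg φ R.R t ω = ∏ τ : 𝒢, (X - C (∑ i, ω i * ((R.m : M) *
        W ((τ : Equiv.Perm (Fin e)) i)))) := hA2 ω
      have h3 : rg φ R.R (fun j => t j) ω = rg φ R.R t ω := rfl
      rw [h3, h2] at h1
      have h4 := congrArg (eval (∑ i, ω i * ((R.m : M) * W (ρ i)))) h1
      rw [eval_prod, eval_prod] at h4
      have h5 : ∏ τ : 𝒢, eval (∑ i, ω i * ((R.m : M) * W (ρ i))) (X - C (∑ i, ω i *
          ((R.m : M) * W (ρ ((τ : Equiv.Perm (Fin e)) i))))) = 0 := by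
        refine Finset.prod_eq_zero (Finset.mem_univ (1 : 𝒢)) ?_
        rw [eval_sub, eval_X, eval_C, sub_eq_zero]
        rfl
      rw [h5] at h4
      obtain ⟨τ, _, hτ⟩ := Finset.prod_eq_zero_iff.mp h4
      rw [eval_sub, eval_X, eval_C] at hτ
      refine Set.mem_iUnion.mpr ⟨τ, ?_⟩
      rw [SetLike.mem_coe, LinearMap.mem_ker, LinearMap.sub_apply, hB, hB]
      exact hτ
    obtain ⟨τ, hτ⟩ := Subspace.exists_eq_top_of_iUnion_eq_univ hcov
    have hρτ : ρ = (τ : Equiv.Perm (Fin e)) := by
      ext1 i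
      apply hW
      have h1 : B ρ - B (τ : Equiv.Perm (Fin e)) = 0 := LinearMap.ker_eq_top.mp hτ
      have h2 := congrArg (fun f => f (Pi.single i (1 : M))) h1
      simp only [LinearMap.sub_apply, LinearMap.zero_apply, hB] at h2
      have h3 : ∀ π : Equiv.Perm (Fin e), ∑ j, (Pi.single i (1 : M) : Fin e → M) j *
          ((R.m : M) * W (π j)) = (R.m : M) * W (π i) := by
        intro π
        rw [Finset.sum_eq_single i]
        · simp
        · intro j _ hj
          rw [Pi.single_eq_of_ne hj, zero_mul]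
        · intro h
          exact absurd (Finset.mem_univ _) h
      rw [h3, h3, ← mul_sub] at h2
      have h4 := (mul_eq_zero.mp h2).resolve_left hm
      exact sub_eq_zero.mp h4
    rw [hρτ]
    exact τ.2
  refine ⟨?_, fun ω => ?_⟩
  · rw [ev_scale φ h hh]
    exact mono_scale _ W hA1 (pow_ne_zero _ hc)
  · rw [hall ω c]
    refine Fintype.prod_equiv (Equiv.mulLeft (⟨ρ, hmem⟩ : 𝒢)) _ _ fun τ => ?_
    rw [Finset.mul_sum]
    congr 2
    refine Finset.sum_congr rfl fun i _ => ?_
    simp only [Equiv.coe_mulLeft, Subgroup.coe_mul, Equiv.Perm.coe_mul, Function.comp_apply]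
    ring

end Pool.Agent.N195.HG.SCL
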